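import Pool.Agent.H.MP_a569f2_lc.A

set_option autoImplicit false
set_option linter.unusedSimpArgs false
set_option linter.unusedVariables false

/-! First-move self-regulating pushdown automata accept exactly the homomorphic images of
intersections of context-free languages with parallel right-linear languages. -/

namespace Pool.Agent.Results.MP_a569f2_lc.Char

open Pool.Agent.H.MP_e3bf5d_lc Pool.Agent.H.MP_a569f2_lc List Sum

attribute [-simp] List.map_subtype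

/-- Computations. The label `r` names the rule `ru r = (Z, q, x, γ, p)`, i.e. `Z q x → γ p`; pushdown
words are written top first. `Comp ru q α w μ f` says `α q w ⊢* f [μ]` (input read, pushdown empty). -/
inductive Comp {Q Γ Ψ : Type} (ru : Ψ → Γ × Q × List ℕ × List Γ × Q) :
    Q → List Γ → List ℕ → List Ψ → Q → Prop
  | nil (f) : Comp ru f [] [] [] f
  | cons {r Z q x γ p α v μ f} : ru r = (Z, q, x, γ, p) → Comp ru p (γ ++ α) v μ f →
      Comp ru q (Z :: α) (x ++ v) (r :: μ) f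

/-- The last label of the list is its earliest label with property `P`. -/
def Fst {Ψ : Type} (P : Ψ → Prop) (l : List Ψ) : Prop := ∃ u r, l = u ++ [r] ∧ P r ∧ ∀ x ∈ u, ¬ P x

/-- `Bl R k m h v`: `v` is a concatenation of `m` blocks of length `k + 1` whose first labels
`r₁, …, r_m` satisfy `R h r₁, R r₁ r₂, …`. -/
def Bl {Ψ : Type} (R : Ψ → Ψ → Prop) (k : ℕ) : ℕ → Ψ → List Ψ → Prop
  | 0, _, v => v = []
  | m + 1, h, v => ∃ r u v', v = r :: u ++ v' ∧ u.length = k ∧ R h r ∧ Bl R k m r v'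

/-- Languages of `n`-turn first-move self-regulating pushdown automata: the words with an accepting
computation `μ = μ₀ μ₁ ⋯ μ_n`, `μ₀ = h :: u`, of the prescribed shape. -/
def FSPDA (n : ℕ) : Set (Set (List ℕ)) :=
  {L | ∃ (Q Γ Ψ : Type) (_ : Finite Q) (_ : Finite Γ) (_ : Finite Ψ)
    (ru : Ψ → Γ × Q × List ℕ × List Γ × Q) (q₀ qt : Q) (Z₀ : Γ) (F : Set Q) (R : Ψ → Ψ → Prop),
      ru.Injective ∧ L = {w | ∃ f ∈ F, ∃ h u v, Comp ru q₀ [Z₀] w (h :: u ++ v) f ∧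
        Fst (fun r => (ru r).2.2.2.2 = qt) (h :: u) ∧ Bl R u.length n h v}}

/-- Right-linear rules `X → x Y` (written `(X, x, some Y)`) and `X → x` (written `(X, x, none)`).
`Pg P k X y`: the nonterminal `X` derives the terminal word `y` in exactly `k + 1` steps. -/
inductive Pg {N T : Type} (P : Set (N × List T × Option N)) : ℕ → N → List T → Prop
  | one {X x} : (X, x, none) ∈ P → Pg P 0 X x
  | step {X x Y k y} : (X, x, some Y) ∈ P → Pg P k Y y → Pg P (k + 1) X (x ++ y)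

/-- Languages of `n`-parallel right-linear grammars: nonterminals `N` sorted by `cp` into `n` components,
start rules `S → X₀ ⋯ X_{n-1}`, all components rewritten in parallel (same number of steps). -/
def PRL (n : ℕ) (T : Type) : Set (Language T) :=
  {L | ∃ (N : Type) (_ : Finite N) (cp : N → ℕ) (S : Set (List N)) (P : Set (N × List T × Option N)),
    P.Finite ∧ (∀ s ∈ S, s.map cp = range n) ∧ (∀ X x Y, (X, x, some Y) ∈ P → cp X = cp Y) ∧
      L = {w | ∃ s ∈ S, ∃ k y, Forall₂ (Pg P k) s y ∧ w = y.flatten}}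

/-- Homomorphic images `h (K ∩ L)` with `K` context-free and `L` `n`-parallel right-linear. -/
def HCP (n : ℕ) : Set (Set (List ℕ)) :=
  {M | ∃ (T : Type) (_ : Finite T) (K L : Language T) (h : T → List ℕ), K.IsContextFree ∧ L ∈ PRL n T ∧
    M = {v | ∃ w, w ∈ K ∧ w ∈ L ∧ v = w.flatMap h}}

section
variable {Q Γ Ψ : Type}

abbrev C (ru : Ψ → Γ × Q × List ℕ × List Γ × Q) :=
  Cp (fun r => (ru r).1) (fun r => (ru r).2.1) (fun r => (ru r).2.2.2.2) fun r => (ru r).2.2.2.1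

theorem comp_iff {ru : Ψ → Γ × Q × List ℕ × List Γ × Q} {q α w μ f} :
    Comp ru q α w μ f ↔ C ru q α μ f ∧ w = μ.flatMap fun r => (ru r).2.2.1 := by
  constructor
  · intro h
    induction h with
    | nil => exact ⟨.nil _, rfl⟩
    | @cons r _ _ _ _ _ α _ μ f e _ ih =>
      have := Cp.cons (top := fun r => (ru r).1) (src := fun r => (ru r).2.1) (r := r) (α := α)
        (tgt := fun r => (ru r).2.2.2.2) (push := fun r => (ru r).2.2.2.1) (μ := μ) (q := f)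
      simp only [e] at this
      exact ⟨this ih.1, by simp [e, ih.2]⟩
  · rintro ⟨h, rfl⟩
    induction h with
    | nil => exact .nil _
    | cons _ ih => exact .cons rfl ih

theorem fst_cons {P : Ψ → Prop} {x l} : Fst P (x :: l) ↔ l = [] ∧ P x ∨ ¬ P x ∧ Fst P l := by
  constructor
  · rintro ⟨_ | ⟨y, u⟩, r, ⟨⟩, a, b⟩
    exacts [.inl ⟨rfl, a⟩, .inr ⟨b _ (.head _), u, r, rfl, a, fun _ q => b _ (.tail _ q)⟩]
  · rintro (⟨rfl, a⟩ | ⟨a, u, r, rfl, b, c⟩)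
    exacts [⟨[], x, rfl, a, nofun⟩, ⟨x :: u, r, rfl, b, forall_mem_cons.2 ⟨a, c⟩⟩]

theorem fst_map {Φ : Type} {P : Ψ → Prop} (π : Φ → Ψ) {l : List Φ} :
    Fst (fun x => P (π x)) l ↔ Fst P (l.map π) := by
  induction l with
  | nil => simp [Fst]
  | cons x l ih => simp [fst_cons, ih]

theorem bl_map {Φ : Type} {R : Ψ → Ψ → Prop} (π : Φ → Ψ) {k m} : ∀ {h : Φ} {v},
    Bl (fun a b => R (π a) (π b)) k m h v ↔ Bl R k m (π h) (v.map π) := by
  induction m with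
  | zero => simp [Bl]
  | succ m ih =>
    refine ⟨?_, fun ⟨r, u, v, e, a, b, c⟩ => ?_⟩
    · rintro ⟨r, u, v, rfl, rfl, a, b⟩
      exact ⟨_, u.map π, _, by simp, by simp, a, ih.1 b⟩
    · obtain ⟨_, v, rfl, e', rfl⟩ := map_eq_append_iff.1 e
      obtain ⟨r, u, rfl, rfl, rfl⟩ := map_eq_cons_iff.1 e'
      exact ⟨r, u, v, rfl, by simpa using a, b, ih.2 c⟩

theorem mk {n L} [Finite Γ] [Finite Ψ] (ru : Ψ → Γ × Q × List ℕ × List Γ × Q) (q₀ qt Z₀) (F : Set Q)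
    (R : Ψ → Ψ → Prop) (hi : ru.Injective) (h : ∀ w, w ∈ L ↔ ∃ f ∈ F, ∃ h u v, C ru q₀ [Z₀] (h :: u ++ v) f ∧
      w = (h :: u ++ v).flatMap (fun r => (ru r).2.2.1) ∧ Fst (fun r => (ru r).2.2.2.2 = qt) (h :: u) ∧
        Bl R u.length n h v) : L ∈ FSPDA n := by
  let A := insert q₀ (insert qt (Set.range (fun r => (ru r).2.1) ∪ Set.range fun r => (ru r).2.2.2.2))
  let ru' : Ψ → Γ × A × List ℕ × List Γ × A := fun r => ((ru r).1, ⟨_, .inr (.inr (.inl ⟨r, rfl⟩))⟩,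
    (ru r).2.2.1, (ru r).2.2.2.1, ⟨_, .inr (.inr (.inr ⟨r, rfl⟩))⟩)
  have k1 : ∀ p α μ q, C ru' p α μ q → C ru p α μ q := fun _ _ _ _ h => by
    induction h with
    | nil => exact .nil _
    | cons _ ih => exact .cons ih
  have k2 : ∀ p α μ q, C ru p α μ q → ∀ hp, ∃ hq, C ru' ⟨p, hp⟩ α μ ⟨q, hq⟩ := fun _ _ _ _ h => by
    induction h with
    | nil => exact fun a => ⟨a, .nil _⟩
    | cons _ ih => exact fun _ => (ih _).imp fun _ => .cons
  refine ⟨A, Γ, Ψ, (((Set.finite_range _).union (Set.finite_range _)).insert _).insert _, ‹_›, ‹_›, ru',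
    ⟨q₀, .inl rfl⟩, ⟨qt, .inr (.inl rfl)⟩, Z₀, {f | f.1 ∈ F}, R, fun a b e => hi (by
      simpa [ru', Prod.ext_iff] using e), Set.ext fun w => (h w).trans ⟨?_, ?_⟩⟩
  · rintro ⟨f, a, h, u, v, b, c, d, e⟩
    obtain ⟨_, b⟩ := k2 _ _ _ _ b (.inl rfl)
    exact ⟨_, a, h, u, v, comp_iff.2 ⟨b, c⟩, by simpa [ru'] using d, e⟩
  · rintro ⟨f, a, h, u, v, b, d, e⟩
    exact ⟨_, a, h, u, v, k1 _ _ _ _ (comp_iff.1 b).1, (comp_iff.1 b).2, by simpa [ru'] using d, e⟩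
end

theorem inv {R S Γ : Type} {top : R → Γ} {src tgt : R → S} {push p α r μ q}
    (h : Cp top src tgt push p α (r :: μ) q) :
    p = src r ∧ ∃ β, α = top r :: β ∧ Cp top src tgt push (tgt r) (push r ++ β) μ q := by
  cases h with | cons h => exact ⟨rfl, _, rfl, h⟩

theorem sub (n : ℕ) : FSPDA n ⊆ HCP (n + 1) := by
  rintro _ ⟨Q, Γ, Ψ, _, _, _, ru, q₀, qt, Z₀, F, R, -, rfl⟩
  let P := {x : (Fin (n + 1) × Option Ψ) × List Ψ × Option (Fin (n + 1) × Option Ψ) | ∃ r, x.2.1 = [r] ∧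
    (∀ a ∈ x.1.2, a = r) ∧ (∀ Y ∈ x.2.2, Y = (x.1.1, none)) ∧
      (x.1.1 = 0 → ((ru r).2.2.2.2 = qt ↔ x.2.2 = none))}
  have k1 : ∀ k X y, Pg P k X y ↔ ∃ r u, y = r :: u ∧ u.length = k ∧ (∀ a ∈ X.2, a = r) ∧
      (X.1 = 0 → Fst (fun r => (ru r).2.2.2.2 = qt) y) := fun k X y => by
    constructor
    · intro h
      induction h with
      | one h => obtain ⟨r, rfl, a, -, b⟩ := h; exact ⟨r, [], rfl, rfl, a, fun e =>
          fst_cons.2 (.inl ⟨rfl, (b e).2 rfl⟩)⟩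
      | step h _ ih =>
        obtain ⟨r, rfl, a, c, b⟩ := h
        obtain ⟨r', u, rfl, rfl, -, d⟩ := ih
        exact ⟨r, _, rfl, rfl, a, fun e => fst_cons.2 (.inr ⟨fun t => (nomatch (b e).1 t),
          d ((congrArg _ (c _ rfl)).trans e)⟩)⟩
    · rintro ⟨r, u, rfl, rfl, a, b⟩
      induction u generalizing X r with
      | nil => exact .one ⟨r, rfl, a, nofun, fun e => by simpa [fst_cons, show ¬ Fst _ [] by simp [Fst]] using b e⟩
      | cons r' u ih => exact .step (x := [r]) ⟨r, rfl, a, fun _ e => (Option.some.inj e).symm, fun e => by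
          simpa using ((fst_cons.1 (b e)).resolve_left (by simp)).1⟩ (ih (X.1, none) r' nofun fun e =>
            ((fst_cons.1 (b e)).resolve_left (by simp)).2)
  let Rl := fun X Y : Fin (n + 1) × Option Ψ => ∃ a b, X.2 = some a ∧ Y.2 = some b ∧ R a b
  have k2 : ∀ k m (j : Fin (n + 1)) h v, j + m = n → (Bl R k m h v ↔ ∃ s y, s.map (·.1.1) = range' (j + 1) m ∧
      IsChain Rl ((j, some h) :: s) ∧ Forall₂ (Pg P k) s y ∧ v = y.flatten) := fun k m => by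
    induction m with
    | zero => exact fun j h v _ => ⟨fun e => ⟨[], [], rfl, .singleton _, .nil, e⟩, by
        rintro ⟨_ | _, _, ⟨⟩, -, ⟨⟩, e⟩; exact e⟩
    | succ m ih =>
      intro j h v e
      replace ih := fun r v => ih ⟨j + 1, by omega⟩ r v (by dsimp only; omega)
      constructor
      · rintro ⟨r, u, v, rfl, rfl, a, b⟩
        obtain ⟨s, y, b1, b2, b3, rfl⟩ := (ih ..).1 b
        exact ⟨_ :: s, _ :: y, congrArg _ b1, .cons_cons ⟨h, r, rfl, rfl, a⟩ b2, .cons ((k1 ..).2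
          ⟨r, u, rfl, rfl, fun _ e => (Option.some.inj e).symm, fun q => nomatch congrArg Fin.val q⟩) b3, rfl⟩
      · rintro ⟨_ | ⟨⟨⟨_, _⟩, _⟩, s⟩, _, a, b, _ | ⟨c, d⟩, rfl⟩
        · cases a
        obtain ⟨rfl, a'⟩ := cons.inj a
        obtain ⟨⟨_, r, ⟨⟩, ⟨⟩, b1⟩, b⟩ := isChain_cons_cons.1 b
        obtain ⟨_, u, rfl, rfl, c, -⟩ := (k1 ..).1 c
        cases c r rfl
        exact ⟨r, u, _, rfl, rfl, b1, (ih ..).2 ⟨s, _, a', b, d, rfl⟩⟩
  refine ⟨Ψ, ‹_›, _, _, fun r => (ru r).2.2.1, cf (fun r => (ru r).1) (fun r => (ru r).2.1)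
    (fun r => (ru r).2.2.2.2) (fun r => (ru r).2.2.2.1) q₀ Z₀ F, ⟨_, inferInstance, (·.1.1),
    {s | s.map (·.1.1) = range (n + 1) ∧ ∃ h t, s = (0, some h) :: t ∧ IsChain Rl s}, P,
    (Set.finite_univ.prod ((finite_length_eq _ 1).prod Set.finite_univ)).subset ?_, fun _ a => a.1, ?_, rfl⟩,
    Set.ext fun w => ⟨?_, ?_⟩⟩
  · rintro _ ⟨r, a, -⟩
    exact ⟨trivial, congrArg length a, trivial⟩
  · rintro X x Y ⟨-, -, -, a, -⟩
    rw [a Y rfl]
  · rintro ⟨f, a, h, u, v, b, c, d⟩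
    obtain ⟨s, y, d1, d2, d3, rfl⟩ := (k2 _ _ 0 _ _ (by simp)).1 d
    exact ⟨_, ⟨f, a, (comp_iff.1 b).1⟩, ⟨_, ⟨by simp [d1, range_eq_range', range'_succ], h, s, rfl, d2⟩, _,
      _ :: y, .cons ((k1 ..).2 ⟨h, u, rfl, rfl, fun _ e => (Option.some.inj e).symm, fun _ => c⟩) d3, rfl⟩,
      (comp_iff.1 b).2⟩
  · rintro ⟨_, ⟨f, a, b⟩, ⟨_, ⟨c, h, s, rfl, d⟩, k, _, _ | ⟨e, e'⟩, rfl⟩, rfl⟩
    obtain ⟨_, u, rfl, rfl, c1, c2⟩ := (k1 ..).1 e
    cases c1 h rfl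
    exact ⟨f, a, h, u, _, comp_iff.2 ⟨b, rfl⟩, c2 rfl, (k2 _ _ 0 _ _ (by simp)).2
      ⟨s, _, by simpa [range_eq_range', range'_succ] using c, d, e', rfl⟩⟩

section
variable {N T : Type}

inductive Tr (n c : ℕ) (S : Set (List N)) (P : Set (N × List T × Option N)) :
    ℕ ⊕ List N × (N × List T × Option N) × ℕ → ℕ ⊕ List N × (N × List T × Option N) × ℕ → Prop
  | head {t ρ} : ρ ∈ P → t.length ≤ n → (t.length = n → ρ.1 :: t ∈ S) →
      Tr n c S P (inl (t.length + 1)) (inr (t, ρ, 0))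
  | emit {t ρ i} : ρ ∈ P → t.length ≤ n → i < c → Tr n c S P (inr (t, ρ, i)) (inr (t, ρ, i + 1))
  | link {t ρ ρ'} : ρ ∈ P → ρ' ∈ P → t.length ≤ n → ρ.2.2 = some ρ'.1 →
      Tr n c S P (inr (t, ρ, c)) (inr (t, ρ', 0))
  | fin {t ρ} : ρ ∈ P → t.length ≤ n → ρ.2.2 = none → Tr n c S P (inr (t, ρ, c)) (inl t.length)

def Pa {A : Type} (E : A → A → Prop) : A → List (A × A) → A → Prop
  | p, [], q => p = q
  | p, x :: l, q => x.1 = p ∧ E p x.2 ∧ Pa E x.2 l q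

theorem pa_app {A : Type} {E : A → A → Prop} {u v q} : ∀ {p}, Pa E p (u ++ v) q ↔
    ∃ m, Pa E p u m ∧ Pa E m v q := by
  induction u <;> simp [Pa, and_assoc, *]

abbrev St (N T : Type) := ℕ ⊕ List N × (N × List T × Option N) × ℕ

theorem sup (n : ℕ) : HCP (n + 1) ⊆ FSPDA n := by
  rintro _ ⟨T, _, K, _, h, hK, ⟨N, _, cp, S, P, fP, hS, -, rfl⟩, rfl⟩
  obtain ⟨Γ, _, D, I, fD, fI, hK⟩ := rt hK
  obtain ⟨c, hc⟩ := (fP.image (·.2.1.length)).bddAbove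
  replace hc : ∀ ρ ∈ P, ρ.2.1.length ≤ c := fun ρ a => hc ⟨ρ, a, rfl⟩
  let E := Tr n c S P
  let out := fun p : St N T => p.elim (fun _ => none) fun x => x.2.1.2.1[x.2.2]?
  let O := fun l : List (St N T × St N T) => l.filterMap fun x => out x.1
  let rk := fun p : St N T => p.elim (2 * ·) (2 * ·.1.length + 1)
  let R := fun a b : St N T × St N T => ∃ t ρ ρ', a.2 = inr (ρ'.1 :: t, ρ, 0) ∧
    b = (inl (t.length + 1), inr (t, ρ', 0))
  have oc : ∀ t ρ i q l, ρ ∈ P → O ((inr (t, ρ, i), q) :: l) = (ρ.2.1[i]?).toList ++ O l := fun t ρ i q l _ => by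
    simp only [O, out, filterMap_cons, elim_inr]; cases ρ.2.1[i]? <;> rfl
  have od : ∀ (x : List T) i l, (x[i]?).toList ++ (x.drop (i + 1) ++ l) = x.drop i ++ l := fun x i l => by
    by_cases e : i < x.length
    · rw [drop_eq_getElem_cons e, getElem?_eq_getElem e]; rfl
    · simp [e, drop_eq_nil_of_le (not_lt.1 e), drop_eq_nil_of_le (Nat.le_succ_of_le (not_lt.1 e))]
  have r1 : ∀ l p q, Pa E p l q → rk q ≤ rk p := fun l => by
    induction l with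
    | nil => rintro _ _ rfl; rfl
    | cons x l ih =>
      obtain ⟨_, _⟩ := x
      rintro _ _ ⟨rfl, a, b⟩
      refine (ih _ _ b).trans ?_
      cases a <;> simp [rk]
  have r2 : ∀ l m, Pa E (inl m) l (inl m) → l = [] := by
    rintro (_ | ⟨⟨_, _⟩, l⟩) m; exacts [fun _ => rfl, by
      rintro ⟨-, ⟨⟩, b⟩; have := r1 _ _ _ b; simp [rk] at this; omega]
  have b0 : ∀ t ρ, ρ ∈ P → t.length ≤ n → ∀ v q, Pa E (inr (t, ρ, c)) v q → Fst (·.2 = q) v → q.isLeft →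
      ∀ d i, i + d = c → ∃ u, u.length = d + v.length ∧ O u = ρ.2.1.drop i ++ O v ∧
        Pa E (inr (t, ρ, i)) u q ∧ Fst (·.2 = q) u := fun t ρ a b v q e f g d => by
    induction d with
    | zero => intro i s; cases (s : i = c); exact ⟨v, by simp, by rw [drop_eq_nil_of_le (i := i) (hc ρ a)]; rfl, e, f⟩
    | succ d ih =>
      intro i s
      obtain ⟨u, c1, c2, c3, c4⟩ := ih (i + 1) (by omega)
      exact ⟨(_, _) :: u, by simp [c1]; omega, by rw [oc _ _ _ _ _ a, c2, od], ⟨rfl, .emit a b (by omega), c3⟩,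
        fst_cons.2 (.inr ⟨by rintro rfl; exact Bool.noConfusion g, c4⟩)⟩
  have b1 : ∀ k X y, Pg P k X y → ∃ ρ ∈ P, ρ.1 = X ∧ ∀ t, t.length ≤ n → ∃ u, u.length = (k + 1) * (c + 1) ∧
      O u = y ∧ Pa E (inr (t, ρ, 0)) u (inl t.length) ∧ Fst (·.2 = inl t.length) u := fun _ _ _ h => by
    induction h with
    | one a =>
      refine ⟨_, a, rfl, fun t b => (b0 t _ a b [(_, _)] _ ⟨rfl, .fin a b rfl, rfl⟩ (fst_cons.2 (.inl ⟨rfl, rfl⟩))
        rfl c 0 (by simp)).imp fun u => And.imp (by simp) (And.imp_left fun e => ?_)⟩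
      rw [e, oc _ _ _ _ _ a, getElem?_eq_none (hc _ a)]; simp [O]
    | step a _ ih =>
      obtain ⟨ρ, a', rfl, ih⟩ := ih
      refine ⟨_, a, rfl, fun t b => ?_⟩
      obtain ⟨v, c1, rfl, c3, c4⟩ := ih t b
      refine (b0 t _ a b ((_, _) :: v) _ ⟨rfl, .link a a' b rfl, c3⟩ (fst_cons.2 (.inr ⟨nofun, c4⟩))
        rfl c 0 (by simp)).imp fun u => And.imp (fun e => by rw [e, length_cons, c1]; ring)
          (And.imp_left fun e => ?_)
      rw [e, oc _ _ _ _ _ a, getElem?_eq_none (hc _ a)]; simp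
  have b2 : ∀ t u ρ i, Pa E (inr (t, ρ, i)) u (inl t.length) → ∃ k y, u.length + i = (k + 1) * (c + 1) ∧
      Pg P k ρ.1 (ρ.2.1 ++ y) ∧ O u = ρ.2.1.drop i ++ y := fun t u => by
    induction u with
    | nil => nofun
    | cons x u ih =>
      obtain ⟨_, _⟩ := x
      rintro ⟨X, x, o⟩ i ⟨rfl, _ | ⟨a, -, -⟩ | ⟨a, -, -, rfl⟩ | ⟨a, -, rfl⟩, b⟩
      · obtain ⟨k, y, c1, c2, c3⟩ := ih _ _ b
        exact ⟨k, y, by rw [length_cons]; omega, c2, by rw [oc _ _ _ _ _ a, c3, od]⟩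
      · obtain ⟨k, y, c1, c2, c3⟩ := ih _ _ b
        exact ⟨k + 1, _, by rw [length_cons, add_mul, ← c1]; omega, .step a c2, by
          rw [oc _ _ _ _ _ a, c3, getElem?_eq_none (hc _ a), drop_eq_nil_of_le (hc _ a)]; rfl⟩
      · cases r2 _ _ b
        exact ⟨0, [], by simp [add_comm], by simpa using .one a, by
          rw [oc _ _ _ _ _ a, getElem?_eq_none (hc _ a), drop_eq_nil_of_le (hc _ a)]; rfl⟩
  have b3 : ∀ k t y, Forall₂ (Pg P k) t y → t.length ≤ n → ∀ ρ a, ∃ v, Bl R ((k + 1) * (c + 1)) t.length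
      (a, inr (t, ρ, 0)) v ∧ Pa E (inl t.length) v (inl 0) ∧ O v = y.flatten := fun k _ _ h => by
    induction h with
    | nil => exact fun _ _ _ => ⟨[], rfl, rfl, rfl⟩
    | cons a _ ih =>
      intro b ρ' p
      obtain ⟨ρ, a', rfl, d⟩ := b1 _ _ _ a
      obtain ⟨u, c1, rfl, c3, -⟩ := d _ (Nat.le_of_succ_le b)
      obtain ⟨v, d1, d2, d3⟩ := ih (Nat.le_of_succ_le b) ρ _
      exact ⟨_, ⟨_, u, v, rfl, c1, ⟨_, _, _, rfl, rfl⟩, d1⟩, ⟨rfl, .head a' (Nat.le_of_succ_le b)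
        fun e => absurd b (by simp [e]), pa_app.2 ⟨_, c3, d2⟩⟩, by simp [O, out, ← d3]⟩
  have b4 : ∀ k' t v ρ a p, Bl R k' t.length (a, inr (t, ρ, 0)) v → Pa E p v (inl 0) → p = inl t.length ∧
      ∀ k, k' = (k + 1) * (c + 1) → ∃ y, Forall₂ (Pg P k) t y ∧ O v = y.flatten := fun k t => by
    induction t with
    | nil => rintro _ _ _ _ rfl rfl; exact ⟨rfl, fun _ _ => ⟨[], .nil, rfl⟩⟩
    | cons X t ih =>
      rintro _ _ _ _ ⟨_, u, v, rfl, a, ⟨_, _, ρ, ⟨⟩, rfl⟩, b⟩ ⟨rfl, -, d⟩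
      obtain ⟨_, d1, d2⟩ := pa_app.1 d
      obtain ⟨rfl, e⟩ := ih _ _ _ _ b d2
      refine ⟨rfl, fun k e' => ?_⟩
      obtain ⟨y, e1, e2⟩ := e k e'
      obtain ⟨k', z, f1, f2, f3⟩ := b2 _ _ _ _ d1
      obtain rfl : k' = k := by simpa [a, e'] using f1.symm
      exact ⟨_ :: y, .cons f2 e1, by simpa [O, out, ← e2] using congrArg (· ++ O v) f3⟩
  let G := fun x : (St N T × St N T) × Option Γ × List (Option Γ) => E x.1.1 x.1.2 ∧ (x.1.1 = inl (n + 1) ∧ x.2.1 = none ∧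
    (∃ δ ∈ I, x.2.2 = δ.map some ++ [none]) ∨ x.1.2 = inl 0 ∧ x.2.1 = none ∧ x.2.2 = [] ∨
      x.1.1 ≠ inl (n + 1) ∧ x.1.2 ≠ inl 0 ∧ (out x.1.1 = none ∧ x.2.2 = [x.2.1] ∨
        ∃ y ∈ D, out x.1.1 = some y.2.1 ∧ x.2.1 = some y.1 ∧ x.2.2 = y.2.2.map some))
  let ru := fun x : Subtype G => (x.1.2.1, x.1.1.1, (out x.1.1.1).elim [] h, x.1.2.2, x.1.1.2)
  have fA : ((inl '' Set.Iic (n + 1) ∪ inr '' {t | t.length ≤ n} ×ˢ P ×ˢ Set.Iic c) :
      Set (St N T)).Finite := ((Set.finite_Iic _).image _).union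
    (((finite_length_le _ n).prod (fP.prod (Set.finite_Iic _))).image _)
  have : Finite (Subtype G) := by
    refine ((fA.prod fA).prod (Set.finite_univ.prod (((fI.image fun δ => δ.map some ++ [none]).union
      (fD.image fun y => y.2.2.map some)).union (finite_length_le _ 1)))).subset (t := {x | G x}) ?_
    rintro ⟨⟨_, _⟩, _, _⟩ ⟨a, b⟩
    refine ⟨by cases a <;> simp [*, le_of_lt, Nat.succ_le_iff], trivial, ?_⟩
    dsimp only at b
    obtain ⟨-, -, δ, b, rfl⟩ | ⟨-, -, rfl⟩ | ⟨-, -, ⟨-, rfl⟩ | ⟨y, b, -, -, rfl⟩⟩ := b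
    exacts [.inl (.inl ⟨δ, b, rfl⟩), .inr (by simp), .inr (by simp), .inl (.inr ⟨y, b, rfl⟩)]
  have cs : ∀ {p q Z β} (x : G ((p, q), Z, β)) {α μ f}, C ru q (β ++ α) μ f →
    C ru p (Z :: α) (⟨_, x⟩ :: μ) f := fun x _ _ _ => .cons (r := (⟨_, x⟩ : Subtype G))
  have t0 : ∀ p m, E p (inl m) → out p = none := fun p m a => by
    cases a with | fin a => exact getElem?_eq_none (hc _ a)
  have t1 : ∀ m q, E (inl m) q → ∃ t ρ, m = t.length + 1 ∧ (t.length = n → ρ.1 :: t ∈ S) ∧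
    q = inr (t, ρ, 0) := fun m q a => by cases a with | head _ _ a => exact ⟨_, _, rfl, a, rfl⟩
  have c0 : ∀ μ : List (Subtype G), μ.flatMap (fun r => (ru r).2.2.1) = (O (μ.map (·.1.1))).flatMap h :=
    fun μ => by
      induction μ with
      | nil => rfl
      | cons x μ ih =>
        rw [flatMap_cons, ih]
        simp only [O, ru, map_cons, filterMap_cons]
        cases out x.1.1.1 <;> rfl
  have c1 : ∀ l p α, Pa E p l (inl 0) → p ≠ inl 0 → rk p ≤ 2 * n + 1 → Rt D α (O l) → ∃ μ : List (Subtype G),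
      μ.map (·.1.1) = l ∧ C ru p (α.map some ++ [none]) μ (inl 0) := fun l => by
    induction l with
    | nil => exact fun _ _ a b => absurd a b
    | cons x l ih =>
      obtain ⟨p, q⟩ := x
      rintro _ α ⟨rfl, a, b⟩ e f g
      have s : rk q ≤ 2 * n + 1 := (r1 [(p, q)] _ _ ⟨rfl, a, rfl⟩).trans f
      have s' : p ≠ inl (n + 1) := by rintro rfl; simp [rk] at f; omega
      by_cases e' : q = inl 0
      · subst e'
        cases r2 _ _ b
        simp only [O, filterMap_cons, t0 _ _ a] at g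
        cases g
        exact ⟨[⟨((_, _), none, []), a, .inr (.inl ⟨rfl, rfl, rfl⟩)⟩], rfl, cs _ (.nil _)⟩
      simp only [O, filterMap_cons] at g
      obtain o | ⟨x, o⟩ := (out p).eq_none_or_eq_some <;> rw [o] at g
      · obtain ⟨μ, rfl, d⟩ := ih _ _ b e' s g
        obtain ⟨Z, β, t⟩ := exists_cons_of_ne_nil (l := α.map some ++ [none]) (by simp)
        rw [t] at d ⊢
        exact ⟨⟨((p, q), Z, [Z]), a, .inr (.inr ⟨s', e', .inl ⟨o, rfl⟩⟩)⟩ :: μ, rfl, cs _ d⟩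
      · obtain _ | ⟨g1, g⟩ := g
        obtain ⟨μ, rfl, d⟩ := ih _ _ b e' s g
        rw [map_append, append_assoc] at d
        exact ⟨⟨((p, q), _, _), a, .inr (.inr ⟨s', e', .inr ⟨_, g1, o, rfl, rfl⟩⟩)⟩ :: μ, rfl,
          cs _ d⟩
  have c2 : ∀ p σ μ f, C ru p σ μ f → ∀ α, σ = α.map some ++ [none] → rk p ≤ 2 * n + 1 →
      Pa E p (μ.map (·.1.1)) (inl 0) ∧ Rt D α (O (μ.map (·.1.1))) := fun _ _ _ _ h => by
    induction h with
    | nil => simp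
    | @cons x _ μ _ d ih =>
      obtain ⟨⟨⟨p, q⟩, Z, β⟩, a, b⟩ := x
      intro α e f
      have s : rk q ≤ 2 * n + 1 := (r1 [(p, q)] _ _ ⟨rfl, a, rfl⟩).trans f
      simp only [O, ru, map_cons, filterMap_cons] at ih e f d ⊢
      replace b := id b
      dsimp only at a b
      obtain ⟨rfl, -⟩ | ⟨rfl, rfl, rfl⟩ | ⟨-, -, ⟨o, rfl⟩ | ⟨y, b, o, rfl, rfl⟩⟩ := b
      · simp [rk] at f; omega
      · obtain _ | _ := α <;> cases e
        obtain _ | _ := μ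
        swap; · obtain ⟨-, _, ⟨⟩, -⟩ := inv d
        exact ⟨⟨rfl, a, rfl⟩, t0 _ _ a ▸ .nil⟩
      · exact (ih α e s).imp (⟨rfl, a, ·⟩) (o ▸ id)
      · obtain _ | ⟨_, α⟩ := α <;> cases e
        exact (ih (y.2.2 ++ α) (by simp) s).imp (⟨rfl, a, ·⟩) (o ▸ .cons b)
  refine mk ru (inl (n + 1)) (inl n) none Set.univ (fun a b => R a.1.1 b.1.1) (fun a b e => by
    simp only [ru, Prod.ext_iff, Subtype.ext_iff] at *; tauto) fun w => ⟨?_, ?_⟩
  · rintro ⟨_, a, ⟨s, b, k, y, d, rfl⟩, rfl⟩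
    have e := congrArg length (hS s b)
    obtain _ | @⟨_, _, t, _, d, d'⟩ := d
    · simp at e
    obtain rfl : t.length = n := by simpa using e
    obtain ⟨ρ, a', rfl, d0⟩ := b1 _ _ _ d
    obtain ⟨u, c3, rfl, c4, c5⟩ := d0 t le_rfl
    obtain ⟨v, d1, d2, d3⟩ := b3 _ _ _ d' le_rfl ρ (inl (t.length + 1))
    obtain ⟨δ, f1, f2⟩ := (hK _).1 a
    have f3 : O (u ++ v) = O u ++ O v := filterMap_append
    obtain ⟨μ, g1, g2⟩ := c1 _ _ δ (pa_app.2 ⟨_, c4, d2⟩) nofun le_rfl (by rwa [f3, d3])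
    obtain ⟨u, v, rfl, rfl, rfl⟩ := map_eq_append_iff.1 g1
    refine ⟨_, trivial, ⟨((_, _), none, _), .head a' le_rfl fun _ => b, .inl ⟨rfl, rfl, δ, f1, rfl⟩⟩, u, v,
      cs _ (by rwa [append_nil]), by rw [c0, flatten_cons, ← d3, ← f3, ← map_append]; rfl,
      fst_cons.2 (.inr ⟨nofun, (fst_map _).2 c5⟩), (bl_map _).2 (by simpa [← c3] using d1)⟩
  · rintro ⟨f, -, ⟨⟨⟨p, q⟩, Z, β⟩, a, b⟩, u, v, d, rfl, -, e⟩
    obtain ⟨⟨⟩, _, ⟨⟩, d'⟩ := inv d
    obtain ⟨-, -, δ, f1, rfl⟩ | ⟨rfl, -⟩ | ⟨b, -⟩ := id b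
    rotate_left; · cases a
    · cases b rfl
    obtain ⟨t, ρ, ⟨⟩, a2, rfl⟩ := t1 _ _ a
    obtain ⟨g1, g2⟩ := c2 _ _ _ _ d' δ (by simp [ru]) le_rfl
    rw [append_eq, map_append] at g1 g2
    obtain ⟨_, g3, g4⟩ := pa_app.1 g1
    obtain ⟨rfl, g5⟩ := b4 _ _ _ _ _ _ ((bl_map fun x : Subtype G => x.1.1).1 e) g4
    obtain ⟨k, z, g6, g7, g8⟩ := b2 _ _ _ _ g3
    obtain ⟨y, g9, g0⟩ := g5 k (by simpa using g6)
    refine ⟨_, (hK _).2 ⟨δ, f1, g2⟩, ⟨_, a2 rfl, k, _, .cons g7 g9, ?_⟩, by rw [c0, ← map_append]; rfl⟩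
    exact filterMap_append.trans (congrArg₂ _ g8 g0)
end

theorem result (n : ℕ) : FSPDA n = HCP (n + 1) := (sub n).antisymm (sup n)

end Pool.Agent.Results.MP_a569f2_lc.Char
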